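import Pool.Agent.H34.FS.Targets
import Pool.Agent.H13.RQ.QPZ
import Pool.Agent.H13.RQ.SMP

/-!
# MP_63b6b1_nt, board `hfs_modules`, row MVL: `p`-adic zeros are robust
-/

set_option autoImplicit false

open Finset Pool.Agent.H32.RQ Pool.Agent.H34.FQ

namespace Pool.Agent.H3.HFS

open Pool.Agent.H34.FS

private theorem dq_smul {R : Type} [CommRing R] {s : ℕ} (f : Mon s → R) (a : R) (x : Fin s → R)
    (j : Fin s) : dq f (fun k => a * x k) j = a * dq f x j := by
  unfold dq
  rw [Finset.mul_sum]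
  refine Finset.sum_congr rfl fun p _ => ?_
  split_ifs <;> ring

private theorem jm_smul {R : Type} [CommRing R] {s : ℕ} (F : Fin 2 → Mon s → R) (a : R)
    (x : Fin s → R) (j l : Fin s) : jm F (fun k => a * x k) j l = a ^ 2 * jm F x j l := by
  unfold jm
  simp only [dq_smul]
  ring

private theorem qf_cong {s : ℕ} (f : Mon s → ℤ) (M : ℤ) (x y : Fin s → ℤ)
    (h : ∀ i, M ∣ x i - y i) : M ∣ qf f x - qf f y := by
  unfold qf
  rw [← Finset.sum_sub_distrib]
  refine Finset.dvd_sum fun p _ => ?_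
  have : f p * (x p.1.1 * x p.1.2) - f p * (y p.1.1 * y p.1.2) =
      f p * ((x p.1.1 - y p.1.1) * x p.1.2 + y p.1.1 * (x p.1.2 - y p.1.2)) := by ring
  rw [this]
  exact Dvd.dvd.mul_left (dvd_add ((h _).mul_right _) ((h _).mul_left _)) _

private theorem dq_cong {s : ℕ} (f : Mon s → ℤ) (M : ℤ) (x y : Fin s → ℤ)
    (h : ∀ i, M ∣ x i - y i) (j : Fin s) : M ∣ dq f x j - dq f y j := by
  unfold dq
  rw [← Finset.sum_sub_distrib]
  refine Finset.dvd_sum fun p _ => ?_
  rw [← mul_sub]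
  refine Dvd.dvd.mul_left ?_ _
  split_ifs
  · have : x p.1.2 + x p.1.1 - (y p.1.2 + y p.1.1) =
      (x p.1.2 - y p.1.2) + (x p.1.1 - y p.1.1) := by ring
    rw [this]
    exact dvd_add (h _) (h _)
  · simpa using h p.1.2
  · simpa using h p.1.1
  · simp

private theorem jm_cong {s : ℕ} (F : Fin 2 → Mon s → ℤ) (M : ℤ) (x y : Fin s → ℤ)
    (h : ∀ i, M ∣ x i - y i) (j l : Fin s) : M ∣ jm F x j l - jm F y j l := by
  unfold jm
  obtain ⟨a, ha⟩ := dq_cong (F 0) M x y h j
  obtain ⟨b, hb⟩ := dq_cong (F 1) M x y h l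
  obtain ⟨c, hc⟩ := dq_cong (F 0) M x y h l
  obtain ⟨d, hd⟩ := dq_cong (F 1) M x y h j
  have ha' : dq (F 0) x j = dq (F 0) y j + M * a := by linarith
  have hb' : dq (F 1) x l = dq (F 1) y l + M * b := by linarith
  have hc' : dq (F 0) x l = dq (F 0) y l + M * c := by linarith
  have hd' : dq (F 1) x j = dq (F 1) y j + M * d := by linarith
  refine ⟨dq (F 0) y j * b + a * dq (F 1) y l + M * a * b - dq (F 0) y l * d -
    c * dq (F 1) y j - M * c * d, ?_⟩
  rw [ha', hb', hc', hd']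
  ring

private theorem jm_euler {s : ℕ} (F : Fin 2 → Mon s → ℤ) (x : Fin s → ℤ) (b : Fin s) :
    ∑ l, x l * jm F x l b = 2 * (qf (F 0) x * dq (F 1) x b - qf (F 1) x * dq (F 0) x b) := by
  have h0 := Pool.Agent.H13.RQ.Hs_euler (F 0) x
  have h1 := Pool.Agent.H13.RQ.Hs_euler (F 1) x
  have : ∑ l, x l * jm F x l b =
      (∑ l, x l * dq (F 0) x l) * dq (F 1) x b - (∑ l, x l * dq (F 1) x l) * dq (F 0) x b := by
    rw [Finset.sum_mul, Finset.sum_mul, ← Finset.sum_sub_distrib]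
    refine Finset.sum_congr rfl fun l _ => ?_
    unfold jm
    ring
  rw [this, h0, h1]
  ring

private theorem jm_self {s : ℕ} (F : Fin 2 → Mon s → ℤ) (x : Fin s → ℤ) (a : Fin s) :
    jm F x a a = 0 := by
  unfold jm
  ring

private theorem jm_swap {s : ℕ} (F : Fin 2 → Mon s → ℤ) (x : Fin s → ℤ) (a b : Fin s) :
    jm F x a b = - jm F x b a := by
  unfold jm
  ring

private theorem cv_split {r : ℕ} (z : Fin (r + 1) → ℤ) :
    cv (z 0) (fun i => z i.succ) = z := by
  funext i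
  refine Fin.cases ?_ (fun k => ?_) i
  · simp [cv]
  · simp [cv]

theorem pf_MVL (hNUL : T_NUL) (hQPZ : T_QPZ) (hGGE : T_GGE) : T_MVL := by
  intro r F p hp hSm
  have hpp : p.Prime := hp.out
  have hpZ : Prime (p : ℤ) := Nat.prime_iff_prime_int.1 hpp
  obtain ⟨N₀, hN1, hN⟩ := hNUL r F hSm
  refine ⟨2 * N₀, ?_⟩
  intro t L hz hNP
  set G := gg F L with hG
  have hGG : ∀ (i : Fin 2) (c : ℤ) (x : Fin r → ℤ),
      qf (G i) (cv c x) = qf (F i) x + c * ∑ j, L i j * cv c x j := fun i c x =>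
    (hGGE ℤ r (F i) (L i) c x).1
  have hGD : ∀ (i : Fin 2) (c : ℤ) (x : Fin r → ℤ) (k : Fin r),
      dq (G i) (cv c x) k.succ = dq (F i) x k + c * L i k.succ := fun i c x k =>
    (hGGE ℤ r (F i) (L i) c x).2.1 k
  obtain ⟨T, hT⟩ : ∃ T, T = t + 2 * N₀ := ⟨_, rfl⟩
  have hPR : PR T p G := by
    rcases hQPZ (r + 1) p T G hz with h | ⟨x, hx1, hx2, hx3⟩
    · exact h
    · exfalso
      apply hNP
      have hd : (p : ℤ) ^ t ∣ (p : ℤ) ^ T := pow_dvd_pow _ (by omega)
      exact ⟨x, hx1, fun i => hd.trans (hx2 i), fun j l => hd.trans (hx3 j l)⟩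
  obtain ⟨z, ⟨i₁, hi₁⟩, hz2, -⟩ := hPR
  have hminor : ∃ a b, ¬ (p : ℤ) ^ t ∣ jm G z a b := by
    by_contra hcon
    push Not at hcon
    exact hNP ⟨z, ⟨i₁, hi₁⟩, fun i => (pow_dvd_pow _ (by omega)).trans (hz2 i), hcon⟩
  by_cases hA : (p : ℤ) ^ (2 * N₀) ∣ z 0
  · -- case A
    have hp0 : (p : ℤ) ∣ z 0 := (dvd_pow_self _ (by omega)).trans hA
    obtain ⟨x, hx⟩ : ∃ x : Fin r → ℤ, x = fun i => z i.succ := ⟨_, rfl⟩
    have hzx : z = cv (z 0) x := by rw [hx, cv_split]
    have hprim : ∃ i, ¬ (p : ℤ) ∣ x i := by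
      revert hi₁
      refine Fin.cases ?_ (fun k => ?_) i₁
      · intro h
        exact absurd hp0 h
      · intro h
        exact ⟨k, by rw [hx]; exact h⟩
    have hFx : ∀ i, (p : ℤ) ^ (2 * N₀) ∣ qf (F i) x := by
      intro i
      have h1 : (p : ℤ) ^ (2 * N₀) ∣ qf (G i) z := (pow_dvd_pow _ (by omega)).trans (hz2 i)
      rw [hzx, hGG] at h1
      exact (dvd_add_left (hA.mul_right _)).1 h1
    have hab : ∃ a b, ¬ (p : ℤ) ^ N₀ ∣ jm F x a b := by
      by_contra hcon
      push Not at hcon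
      have h1 := hN p N₀ x hpp hprim (fun i => (pow_dvd_pow _ (by omega)).trans (hFx i)) hcon
      have h2 := Nat.le_of_dvd (by omega) h1
      have h3 : N₀ < p ^ N₀ := Nat.lt_pow_self hpp.one_lt
      omega
    obtain ⟨a, b, hab⟩ := hab
    refine ⟨2 * N₀, by omega, N₀, x, by omega, fun _ => hprim, ?_, a, b, ?_⟩
    · intro i
      rw [← hG, hGG]
      exact dvd_add (hFx i) (Dvd.intro _ rfl)
    · intro hcon
      apply hab
      rw [← hG] at hcon
      have h1 : (p : ℤ) ^ N₀ ∣ (p : ℤ) ^ (2 * N₀) := pow_dvd_pow _ (by omega)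
      obtain ⟨w, hw⟩ := h1
      unfold jm at hcon ⊢
      simp only [hGD] at hcon
      obtain ⟨v, hv⟩ := hcon
      rw [hw] at hv
      refine ⟨v - w * (L 0 a.succ * dq (F 1) x b + dq (F 0) x a * L 1 b.succ
        - L 0 b.succ * dq (F 1) x a - dq (F 0) x b * L 1 a.succ) -
        w * (p ^ N₀ * w) * (L 0 a.succ * L 1 b.succ - L 0 b.succ * L 1 a.succ), ?_⟩
      linear_combination hv
  · -- case B
    have hz0 : z 0 ≠ 0 := by
      intro h
      rw [h] at hA
      exact hA (dvd_zero _)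
    obtain ⟨j, y, hy, hzy⟩ : ∃ (j : ℕ) (y : ℤ), ¬ (p : ℤ) ∣ y ∧ z 0 = (p : ℤ) ^ j * y := by
      have hfin : FiniteMultiplicity (p : ℤ) (z 0) :=
        Int.finiteMultiplicity_iff.2 ⟨by
          rw [Int.natAbs_natCast]
          exact hpp.one_lt.ne', hz0⟩
      obtain ⟨y, hy1, hy2⟩ := hfin.exists_eq_pow_mul_and_not_dvd
      exact ⟨_, y, hy2, hy1⟩
    have hj : j < 2 * N₀ := by
      by_contra hcon
      push Not at hcon
      apply hA
      rw [hzy]
      exact (pow_dvd_pow _ hcon).mul_right _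
    have hcop : IsCoprime y ((p : ℤ) ^ (2 * T)) := by
      apply IsCoprime.pow_right
      exact ((hpZ.coprime_iff_not_dvd).2 hy).symm
    obtain ⟨yd, w, hyd⟩ := hcop
    have hydp : ¬ (p : ℤ) ∣ yd := by
      intro h
      have hT0 : 2 * T ≠ 0 := by omega
      have h1 : (p : ℤ) ∣ 1 := by
        rw [← hyd]
        exact dvd_add (h.mul_right _) ((dvd_pow_self _ hT0).mul_left _)
      exact hpZ.not_isUnit (isUnit_of_dvd_one h1)
    obtain ⟨u, hu⟩ : ∃ u : Fin r → ℤ, u = fun i => yd * z i.succ := ⟨_, rfl⟩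
    have hcong : ∀ i, (p : ℤ) ^ (2 * T) ∣ cv ((p : ℤ) ^ j) u i - yd * z i := by
      intro i
      refine Fin.cases ?_ (fun k => ?_) i
      · have h1 : cv ((p : ℤ) ^ j) u 0 = (p : ℤ) ^ j := by simp [cv]
        rw [h1, hzy]
        refine ⟨(p : ℤ) ^ j * w, ?_⟩
        linear_combination (-(p : ℤ) ^ j) * hyd
      · have h1 : cv ((p : ℤ) ^ j) u k.succ = yd * z k.succ := by simp [cv, hu]
        rw [h1, sub_self]
        exact dvd_zero _
    have hqz : ∀ i, (p : ℤ) ^ (2 * T) ∣ qf (G i) (cv ((p : ℤ) ^ j) u) := by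
      intro i
      have h1 := qf_cong (G i) _ _ _ hcong
      have h2 : (p : ℤ) ^ (2 * T) ∣ qf (G i) (fun k => yd * z k) := by
        rw [Pool.Agent.H13.RQ.qf_smul]
        exact (hz2 i).mul_left _
      have h3 := dvd_add h1 h2
      rw [sub_add_cancel] at h3
      exact h3
    have hclaim : ∃ a b : Fin r, ¬ (p : ℤ) ^ T ∣ jm G z a.succ b.succ := by
      by_contra hcon
      push Not at hcon
      obtain ⟨a₀, b₀, hab⟩ := hminor
      have h0 : ∀ l : Fin r, (p : ℤ) ^ t ∣ jm G z 0 l.succ := by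
        intro l
        have h1 := jm_euler G z l.succ
        rw [Fin.sum_univ_succ] at h1
        have h2 : (p : ℤ) ^ T ∣ z 0 * jm G z 0 l.succ := by
          have h3 : z 0 * jm G z 0 l.succ =
              2 * (qf (G 0) z * dq (G 1) z l.succ - qf (G 1) z * dq (G 0) z l.succ) -
                ∑ i : Fin r, z i.succ * jm G z i.succ l.succ := by
            linarith
          rw [h3]
          have h4 : (p : ℤ) ^ T ∣ (p : ℤ) ^ (2 * T) := pow_dvd_pow _ (by omega)
          refine dvd_sub (Dvd.dvd.mul_left (dvd_sub ((h4.trans (hz2 0)).mul_right _)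
            ((h4.trans (hz2 1)).mul_right _)) _) ?_
          exact Finset.dvd_sum fun i _ => (hcon i l).mul_left _
        rw [hzy] at h2
        have h5 : (p : ℤ) ^ T = (p : ℤ) ^ j * (p : ℤ) ^ (T - j) := by
          rw [← pow_add]
          congr 1
          omega
        rw [h5, mul_assoc] at h2
        have h6 : (p : ℤ) ^ (T - j) ∣ y * jm G z 0 l.succ :=
          (mul_dvd_mul_iff_left (pow_ne_zero _ hpZ.ne_zero)).1 h2
        have h7 : (p : ℤ) ^ (T - j) ∣ jm G z 0 l.succ :=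
          hpZ.pow_dvd_of_dvd_mul_left _ hy h6
        exact (pow_dvd_pow _ (by omega)).trans h7
      apply hab
      revert hab
      refine Fin.cases ?_ (fun a => ?_) a₀
      · refine Fin.cases ?_ (fun b => ?_) b₀
        · intro _
          rw [jm_self]
          exact dvd_zero _
        · intro _
          exact h0 b
      · refine Fin.cases ?_ (fun b => ?_) b₀
        · intro _
          rw [jm_swap, dvd_neg]
          exact h0 a
        · intro _
          exact (pow_dvd_pow _ (by omega)).trans (hcon a b)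
    obtain ⟨a, b, hab⟩ := hclaim
    refine ⟨j, by omega, T, u, by omega, ?_, hqz, a, b, ?_⟩
    · intro hj0
      have hp0 : (p : ℤ) ∣ z 0 := by
        rw [hzy]
        exact (dvd_pow_self _ hj0).mul_right _
      revert hi₁
      refine Fin.cases ?_ (fun k => ?_) i₁
      · intro h
        exact absurd hp0 h
      · intro h
        refine ⟨k, ?_⟩
        rw [hu]
        intro hk
        rcases hpZ.dvd_or_dvd hk with h1 | h1
        · exact hydp h1
        · exact h h1
    · intro hcon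
      apply hab
      have h1 := jm_cong G _ _ _ hcong a.succ b.succ
      have h2 : (p : ℤ) ^ T ∣ jm G (fun k => yd * z k) a.succ b.succ := by
        have h3 : (p : ℤ) ^ T ∣ (p : ℤ) ^ (2 * T) := pow_dvd_pow _ (by omega)
        have h4 := dvd_sub hcon (h3.trans h1)
        rw [sub_sub_cancel] at h4
        exact h4
      rw [jm_smul] at h2
      have h5 : ¬ (p : ℤ) ∣ yd ^ 2 := fun h => hydp (hpZ.dvd_of_dvd_pow h)
      exact hpZ.pow_dvd_of_dvd_mul_left _ h5 h2

end Pool.Agent.H3.HFS
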